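import Pool.Agent.V7H4.NC.Dd

/-!
# Edmonds' problem: rank and noncommutative rank of pencils with coefficients of bounded rank

Let `M = A₀ + ∑ xᵢ Aᵢ` be a matrix of affine linear forms over any field, where the matrix `A₀` is
arbitrary and the matrices `Aᵢ` have rank at most `r`. Then the noncommutative rank of `M`, the
minimum of `dim V - dim U + dim (A₀ U + ∑ Aᵢ U)` over all subspaces `U` (a certificate for an upper
bound of the rank which is checked by linear algebra), is at most `2 - 1 / r` times the rank of `M`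
over the field of rational functions. For `r = 1` they are equal, for `r = 2` the factor is `3 / 2`,
which is sharp.

Proof. For a minimiser `U` write `A U` for `A₀ U + ∑ Aᵢ U`. If no nonzero vector is killed by all `Aᵢ`,
there is an index `i` such that no minimiser `U` has `U ≤ ker Aᵢ` and `im Aᵢ ≤ A U`: otherwise the
smallest minimiser is zero, and a minimal nonzero minimiser `M` is killed by all `Aᵢ`, because it
meets the minimiser `Uᵢ` in zero, so `A M` meets `A Uᵢ ≥ im Aᵢ` in zero. The contraction of this `Aᵢ`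
(the pencil from `ker Aᵢ` to the cokernel of `Aᵢ`) has noncommutative rank smaller by at most
`2 rank Aᵢ - 1`, and rank smaller by at least `rank Aᵢ`.
-/

set_option autoImplicit false

namespace Pool.Agent.Results.MP_966f71_lc.BoundedCoefficientRankH4

open MvPolynomial Module

/-- The rank of the matrix `A₀ + ∑ xᵢ Aᵢ` over the field `F(xᵢ : i ∈ ι)` of rational functions. -/
noncomputable def symbolicRank {F ι : Type*} [Field F] [Fintype ι] {m n : ℕ}
    (A₀ : Matrix (Fin m) (Fin n) F) (A : ι → Matrix (Fin m) (Fin n) F) : ℕ :=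
  ((A₀.map C + ∑ i, (X i : MvPolynomial ι F) • (A i).map C).map
    (algebraMap (MvPolynomial ι F) (FractionRing (MvPolynomial ι F)))).rank

/-- The space `A₀ U + ∑ Aᵢ U`. -/
def image {F ι : Type*} [Field F] {m n : ℕ} (A₀ : Matrix (Fin m) (Fin n) F)
    (A : ι → Matrix (Fin m) (Fin n) F) (U : Submodule F (Fin n → F)) : Submodule F (Fin m → F) :=
  U.map A₀.mulVecLin ⊔ ⨆ i, U.map (A i).mulVecLin

/-- The noncommutative rank: the minimum of `n - dim U + dim (A₀ U + ∑ Aᵢ U)` over all subspaces
`U` of `Fⁿ`. -/
noncomputable def ncRank {F ι : Type*} [Field F] {m n : ℕ} (A₀ : Matrix (Fin m) (Fin n) F)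
    (A : ι → Matrix (Fin m) (Fin n) F) : ℕ :=
  sInf {k | ∃ U : Submodule F (Fin n → F), k = n - finrank F U + finrank F (image A₀ A U)}

section

variable {F ι : Type*} [Field F] {m n : ℕ} (A₀ : Matrix (Fin m) (Fin n) F)
  (A : ι → Matrix (Fin m) (Fin n) F)

open Pool.Agent.V7H4.NC

theorem val_eq (U : Submodule F (Fin n → F)) : n - finrank F U + finrank F (image A₀ A U) =
    val A₀.mulVecLin (fun i => (A i).mulVecLin) U := by
  unfold val
  rw [Module.finrank_fin_fun, add_comm]
  rfl

theorem ncRank_le (U : Submodule F (Fin n → F)) :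
    ncRank A₀ A ≤ val A₀.mulVecLin (fun i => (A i).mulVecLin) U :=
  Nat.sInf_le ⟨U, (val_eq A₀ A U).symm⟩

theorem le_ncRank {k : ℕ} (h : ∀ U, k ≤ val A₀.mulVecLin (fun i => (A i).mulVecLin) U) :
    k ≤ ncRank A₀ A := by
  apply le_csInf
  · exact ⟨_, ⊥, rfl⟩
  · rintro _ ⟨U, rfl⟩
    rw [val_eq]
    exact h U

variable [Fintype ι]

theorem symbolicRank_eq : symbolicRank A₀ A =
    rk (ev (FractionRing (MvPolynomial ι F)) A₀.mulVecLin (fun i => (A i).mulVecLin)
      (fun i => algebraMap (MvPolynomial ι F) (FractionRing (MvPolynomial ι F)) (X i))) := by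
  rw [rk_eq_rank]
  unfold symbolicRank
  congr 1
  ext a b
  simp only [Matrix.map_apply, Matrix.add_apply, Matrix.sum_apply, Matrix.smul_apply, smul_eq_mul,
    map_add, map_sum, map_mul]
  rfl

theorem le_symbolicRank (E : Type*) [Field E] [Algebra F E] (x : ι → E) :
    rk (ev E A₀.mulVecLin (fun i => (A i).mulVecLin) x) ≤ symbolicRank A₀ A := by
  rw [rk_eq_rank]
  have h := rank_map_le (A₀.map C + ∑ i, (X i : MvPolynomial ι F) • (A i).map C)
    (MvPolynomial.aeval x : MvPolynomial ι F →ₐ[F] E).toRingHom
    (algebraMap (MvPolynomial ι F) (FractionRing (MvPolynomial ι F)))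
    (IsFractionRing.injective _ _)
  refine le_trans (le_of_eq ?_) h
  congr 1
  ext a b
  simp [Matrix.sum_apply]

end

section sharp

variable (F : Type*) [Field F]

open Pool.Agent.V7H4.NC

/-- The coefficients of the generic alternating matrix of order three. -/
def alt : Fin 3 → Matrix (Fin 3) (Fin 3) F :=
  ![!![0, 0, 0; 0, 0, 1; 0, -1, 0], !![0, 0, -1; 0, 0, 0; 1, 0, 0], !![0, 1, 0; -1, 0, 0; 0, 0, 0]]

variable {F}

theorem rank_le_two {K : Type*} [Field K] (M : Matrix (Fin 3) (Fin 3) K) (v : Fin 3 → K)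
    (hv : v ≠ 0) (h : M.mulVec v = 0) : M.rank ≤ 2 := by
  have h1 := LinearMap.finrank_range_add_finrank_ker M.mulVecLin
  rw [Module.finrank_fin_fun] at h1
  have h2 : 0 < finrank K (LinearMap.ker M.mulVecLin) := by
    rw [Module.finrank_pos_iff_exists_ne_zero]
    exact ⟨⟨v, h⟩, fun h3 => hv (congrArg Subtype.val h3)⟩
  have h3 : M.rank = finrank K (LinearMap.range M.mulVecLin) := rfl
  omega

theorem rank_alt (k : Fin 3) : (alt F k).rank = 2 := by
  apply le_antisymm
  · apply rank_le_two _ (Pi.single k 1)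
    · intro h
      have := congrFun h k
      simp at this
    · fin_cases k <;> (ext i; fin_cases i <;> simp [alt])
  · fin_cases k
    · apply le_rank_of_minor _ 2 ![1, 2] ![1, 2]
      rw [Matrix.det_fin_two]
      simp [alt]
    · apply le_rank_of_minor _ 2 ![0, 2] ![0, 2]
      rw [Matrix.det_fin_two]
      simp [alt]
    · apply le_rank_of_minor _ 2 ![0, 1] ![0, 1]
      rw [Matrix.det_fin_two]
      simp [alt]

theorem symbolicRank_alt : symbolicRank 0 (alt F) = 2 := by
  apply le_antisymm
  · unfold symbolicRank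
    apply rank_le_two _ (fun k => algebraMap (MvPolynomial (Fin 3) F)
      (FractionRing (MvPolynomial (Fin 3) F)) (X k))
    · intro h
      have h1 := congrFun h 0
      have h2 : (X 0 : MvPolynomial (Fin 3) F) = 0 :=
        (map_eq_zero_iff _ (IsFractionRing.injective _ _)).1 h1
      exact MvPolynomial.X_ne_zero 0 h2
    · ext i
      fin_cases i <;>
      · simp [alt, Matrix.mulVec, dotProduct, Fin.sum_univ_three]
        ring
  · have h := le_symbolicRank (0 : Matrix (Fin 3) (Fin 3) F) (alt F) F (Pi.single 2 1)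
    rw [rk_eq_rank] at h
    refine le_trans (le_of_eq ((rank_alt (F := F) 2).symm.trans ?_)) h
    congr 1
    ext a b
    simp

theorem ncRank_alt : ncRank 0 (alt F) = 3 := by
  apply le_antisymm
  · refine (ncRank_le 0 (alt F) ⊥).trans ?_
    unfold val
    rw [img_bot]
    simp
  · apply le_ncRank
    intro U
    have hU := Submodule.finrank_le U
    rw [Module.finrank_fin_fun] at hU
    suffices h : finrank F U ≤ finrank F
        (img (0 : Matrix (Fin 3) (Fin 3) F).mulVecLin (fun i => (alt F i).mulVecLin) U) by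
      unfold val
      rw [Module.finrank_fin_fun]
      omega
    set Z := img (0 : Matrix (Fin 3) (Fin 3) F).mulVecLin (fun i => (alt F i).mulVecLin) U with hZ
    have hmem : ∀ k, ∀ v ∈ U, (alt F k).mulVec v ∈ Z := fun k v hv =>
      map_le_img _ (fun i => (alt F i).mulVecLin) U k ⟨v, hv, rfl⟩
    by_cases hbot : U = ⊥
    · rw [hbot, finrank_bot]
      exact Nat.zero_le _
    obtain ⟨v, hv, hv0⟩ := Submodule.exists_mem_ne_zero_of_ne_bot hbot
    have h2 : 2 ≤ finrank F Z := by
      let L : (Fin 3 → F) →ₗ[F] (Fin 3 → F) :=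
        ∑ k, (LinearMap.proj k : (Fin 3 → F) →ₗ[F] F).smulRight ((alt F k).mulVec v)
      have hL : ∀ w, L w = ∑ k, w k • (alt F k).mulVec v := by
        intro w
        simp [L, LinearMap.sum_apply]
      have h3 := LinearMap.finrank_range_add_finrank_ker L
      rw [Module.finrank_fin_fun] at h3
      have h4 : LinearMap.range L ≤ Z := by
        rintro _ ⟨w, rfl⟩
        rw [hL]
        exact Submodule.sum_mem _ fun k _ => Submodule.smul_mem _ _ (hmem k v hv)
      have h5 := Submodule.finrank_mono h4
      have h6 : LinearMap.ker L ≤ Submodule.span F {v} := by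
        intro w hw
        rw [LinearMap.mem_ker, hL] at hw
        have e0 := congrFun hw 0
        have e1 := congrFun hw 1
        have e2 := congrFun hw 2
        simp [alt, Fin.sum_univ_three, Matrix.mulVec, dotProduct] at e0 e1 e2
        have hall : ∀ k j, w k * v j = w j * v k := by
          intro k j
          fin_cases k <;> fin_cases j
          · rfl
          · change w 0 * v 1 = w 1 * v 0; linear_combination -e2
          · change w 0 * v 2 = w 2 * v 0; linear_combination e1
          · change w 1 * v 0 = w 0 * v 1; linear_combination e2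
          · rfl
          · change w 1 * v 2 = w 2 * v 1; linear_combination -e0
          · change w 2 * v 0 = w 0 * v 2; linear_combination -e1
          · change w 2 * v 1 = w 1 * v 2; linear_combination e0
          · rfl
        obtain ⟨k, hk⟩ : ∃ k, v k ≠ 0 := by
          by_contra hcon
          push Not at hcon
          exact hv0 (funext hcon)
        rw [Submodule.mem_span_singleton]
        refine ⟨w k / v k, ?_⟩
        ext j
        rw [Pi.smul_apply, smul_eq_mul, div_mul_eq_mul_div, div_eq_iff hk]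
        exact hall k j
      have h7 := Submodule.finrank_mono h6
      have h8 : finrank F (Submodule.span F {v}) = 1 := finrank_span_singleton hv0
      omega
    by_cases h3 : finrank F U ≤ 2
    · omega
    have hUtop : U = ⊤ := by
      apply Submodule.eq_top_of_finrank_eq
      rw [Module.finrank_fin_fun]
      omega
    have hZtop : Z = ⊤ := by
      rw [eq_top_iff]
      rintro y -
      have h5 : y = y 0 • (alt F 2).mulVec (Pi.single 1 1) + y 1 • (alt F 0).mulVec (Pi.single 2 1) +
          y 2 • (alt F 1).mulVec (Pi.single 0 1) := by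
        ext j
        fin_cases j <;> simp [alt]
      rw [h5]
      have hm : ∀ k w, (alt F k).mulVec w ∈ Z := fun k w => hmem k w (by rw [hUtop]; trivial)
      exact Submodule.add_mem _ (Submodule.add_mem _ (Submodule.smul_mem _ _ (hm _ _))
        (Submodule.smul_mem _ _ (hm _ _))) (Submodule.smul_mem _ _ (hm _ _))
    rw [hZtop, finrank_top, Module.finrank_fin_fun]
    omega

end sharp

/-- **Rank and noncommutative rank of pencils whose coefficients have bounded rank.** -/
theorem result {F ι : Type*} [Field F] [Fintype ι] {m n : ℕ} (A₀ : Matrix (Fin m) (Fin n) F)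
    (A : ι → Matrix (Fin m) (Fin n) F) :
    symbolicRank A₀ A ≤ ncRank A₀ A ∧
    (∃ d : ι → ℕ, (∀ i, d i ≤ (A i).rank) ∧ ∑ i, d i ≤ symbolicRank A₀ A ∧
      ncRank A₀ A ≤ symbolicRank A₀ A + ∑ i, (d i - 1)) ∧
    (∀ r : ℕ, (∀ i, (A i).rank ≤ r) → r * ncRank A₀ A ≤ (2 * r - 1) * symbolicRank A₀ A) ∧
    (∀ i, (alt F i).rank = 2) ∧ symbolicRank 0 (alt F) = 2 ∧ ncRank 0 (alt F) = 3 := by
  classical
  have key : ∃ d : ι → ℕ, (∀ i, d i ≤ (A i).rank) ∧ ∑ i, d i ≤ symbolicRank A₀ A ∧
      ncRank A₀ A ≤ symbolicRank A₀ A + ∑ i, (d i - 1) := by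
    obtain ⟨U, d, x, h1, h2, h3⟩ := Pool.Agent.V7H4.NC.main_aux (AlgebraicClosure F) n
      (Fin n → F) (Fin m → F) A₀.mulVecLin (fun i => (A i).mulVecLin)
      (le_of_eq (Module.finrank_fin_fun F))
    have h4 := le_symbolicRank A₀ A (AlgebraicClosure F) x
    have h5 := ncRank_le A₀ A U
    exact ⟨d, h1, h2.trans h4, by omega⟩
  refine ⟨?_, key, ?_, rank_alt, symbolicRank_alt, ncRank_alt⟩
  · apply le_ncRank
    intro U
    rw [symbolicRank_eq]
    exact Pool.Agent.V7H4.NC.sound _ _ _ _ U
  · intro r hr
    obtain ⟨d, h1, h2, h3⟩ := key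
    rcases Nat.eq_zero_or_pos r with rfl | hr0
    · simp
    have h4 : r * ∑ i, (d i - 1) ≤ (r - 1) * ∑ i, d i := by
      rw [Finset.mul_sum, Finset.mul_sum]
      refine Finset.sum_le_sum fun i _ => ?_
      have h5 : d i ≤ r := (h1 i).trans (hr i)
      rcases Nat.eq_zero_or_pos (d i) with h6 | h6
      · simp [h6]
      · obtain ⟨a, ha⟩ := Nat.exists_eq_add_of_le h6
        obtain ⟨b, hb⟩ := Nat.exists_eq_add_of_le hr0
        have hab : a ≤ b := by omega
        rw [ha, hb]
        simp only [Nat.succ_eq_add_one, zero_add, Nat.add_sub_cancel_left]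
        nlinarith
    have h6 : (r - 1) * ∑ i, d i ≤ (r - 1) * symbolicRank A₀ A := Nat.mul_le_mul_left _ h2
    calc r * ncRank A₀ A ≤ r * (symbolicRank A₀ A + ∑ i, (d i - 1)) := Nat.mul_le_mul_left _ h3
      _ = r * symbolicRank A₀ A + r * ∑ i, (d i - 1) := by ring
      _ ≤ r * symbolicRank A₀ A + (r - 1) * symbolicRank A₀ A := by omega
      _ = (2 * r - 1) * symbolicRank A₀ A := by
        rw [← Nat.add_mul]
        congr 1
        omega

end Pool.Agent.Results.MP_966f71_lc.BoundedCoefficientRankH4
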