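import Pool.Agent.V7H19.JC.Ext
import Pool.Agent.V7H19.JC.Triple
import Pool.Agent.V7H19.JC.One

/-!
# Edmonds' problem: Jordan certificates for upper bounds of the rank of a symbolic matrix

A certificate of a new kind that the rank of `A₀ + ∑ xᵢ Aᵢ` over the field of rational functions is at
most `r`. It consists of matrices and vector spaces of matrices, and is checked by linear algebra. A
block of it is a matrix `P` with a generalised inverse `A`, a space `S` of matrices and a larger
space `J` which contains `(1 - w) y P x + w x P y` for all `x` in `S`, `y` in `J`, where `w` is a fixed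
scalar, and the corner `(1 - A P) J (1 - P A)` of which is zero. Then all `x` in `S` have rank at most
`rank P`. The blocks may be multiplied by fixed matrices and added.

For `w = 1` (and `w = 0`) the blocks are the shrunk subspaces, the known certificates of the
noncommutative rank. For `w = 1 / 2` the space `J` is only stable under the Jordan product
`(x P y + y P x) / 2`, a much weaker condition. So there are certificates for matrix spaces
without shrunk subspaces: the bound of Lovász for the spaces spanned by skew-symmetric matrices of rank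
two (matroid parity) is obtained; for all spaces which are closed under `x ↦ x y x` for a generalised
inverse `y` of an element `B` of maximal rank the certificate exists and is exact, and the first order
test for the maximality of the rank of `B` is exact; this holds for all rational (real) spaces
of matrices closed under `x yᵀ x`. For the contractions of the exterior algebra, which are the known
spaces for which the noncommutative rank is nearly twice the rank, the certificate is exact.

Proof of the soundness. By the stability, `x (P x)^k` is in `J` for all `k`, since both `y P x` and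
`x P y` are the next power for `y = x (P x)^k`. Let `N = ker (P A)` and let `B` be the sum of the spaces
`x (P x)^k N`. The condition on the corner says that `A P` is the identity on `B`, and `x` maps
`P B + N`, which has the dimension `dim B + n - rank P`, to `B`. So the rank of `x` is at most `rank P`.
-/

set_option autoImplicit false

namespace Pool.Agent.Results.MP_966f71_lc.JordanCertificatesH19

open MvPolynomial Module Matrix Pool.Agent.V7H19.JC

/-- The rank of the matrix `A₀ + ∑ xᵢ Aᵢ` over the field `F(xᵢ : i ∈ ι)` of rational functions. -/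
noncomputable def symbolicRank {F ι : Type*} [Field F] [Fintype ι] {m n : ℕ}
    (A₀ : Matrix (Fin m) (Fin n) F) (A : ι → Matrix (Fin m) (Fin n) F) : ℕ :=
  ((A₀.map C + ∑ i, (X i : MvPolynomial ι F) • (A i).map C).map
    (algebraMap (MvPolynomial ι F) (FractionRing (MvPolynomial ι F)))).rank

section

variable {F ι : Type*} [Field F] [Fintype ι] {m n : ℕ}

theorem symbolicRank_le {A₀ : Matrix (Fin m) (Fin n) F} {A : ι → Matrix (Fin m) (Fin n) F}
    {T : Set (Matrix (Fin m) (Fin n) F)} {r s : ℕ} (h : Certified T r s) (h0 : A₀ ∈ T)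
    (hA : ∀ i, A i ∈ T) : symbolicRank A₀ A ≤ r := by
  classical
  have h1 := h.rank_le (E := FractionRing (MvPolynomial ι F)) (κ := Option ι)
    (fun o => o.elim A₀ A) (by rintro (_ | i); exacts [h0, hA i])
    (fun o => o.elim 1 fun i => algebraMap (MvPolynomial ι F) _ (X i))
  refine le_trans (le_of_eq ?_) h1
  unfold symbolicRank
  congr 1
  rw [Fintype.sum_option]
  have hC : ∀ z : F, algebraMap (MvPolynomial ι F) (FractionRing (MvPolynomial ι F)) (C z) =
      algebraMap F (FractionRing (MvPolynomial ι F)) z := fun z => rfl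
  ext a b
  simp [Matrix.sum_apply, hC, Algebra.smul_def]

theorem le_symbolicRank (A₀ : Matrix (Fin m) (Fin n) F) (A : ι → Matrix (Fin m) (Fin n) F)
    (x : ι → F) : (A₀ + ∑ i, x i • A i).rank ≤ symbolicRank A₀ A := by
  have h := rank_map_le (A₀.map C + ∑ i, (X i : MvPolynomial ι F) • (A i).map C)
    (MvPolynomial.aeval x : MvPolynomial ι F →ₐ[F] F).toRingHom
    (algebraMap (MvPolynomial ι F) (FractionRing (MvPolynomial ι F)))
    (IsFractionRing.injective _ _)
  refine le_trans (le_of_eq ?_) h
  congr 1
  ext a b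
  simp [Matrix.sum_apply]

theorem le_symbolicRank_span (A : ι → Matrix (Fin m) (Fin n) F) (B : Matrix (Fin m) (Fin n) F)
    (hB : B ∈ Submodule.span F (Set.range A)) : B.rank ≤ symbolicRank 0 A := by
  classical
  obtain ⟨c, rfl⟩ := (Submodule.mem_span_range_iff_exists_fun F).1 hB
  have := le_symbolicRank 0 A c
  rwa [zero_add] at this

/-- exactness, from the three equivalent conditions -/
theorem exact_of_tfae (A : ι → Matrix (Fin m) (Fin n) F) (B : Matrix (Fin m) (Fin n) F)
    (hB : B ∈ Submodule.span F (Set.range A))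
    (h : List.TFAE [∀ x ∈ Submodule.span F (Set.range A), ∀ v, B *ᵥ v = 0 → ∃ w, x *ᵥ v = B *ᵥ w,
      ∀ x ∈ Submodule.span F (Set.range A), x.rank ≤ B.rank,
      Certified ((Submodule.span F (Set.range A) : Submodule F (Matrix (Fin m) (Fin n) F)) :
        Set (Matrix (Fin m) (Fin n) F)) B.rank (1 + m + n)]) :
    (B.rank = symbolicRank 0 A ↔ ∀ i, ∀ v, B *ᵥ v = 0 → ∃ w, A i *ᵥ v = B *ᵥ w) ∧
    (B.rank = symbolicRank 0 A →
      Certified (Set.range A) (symbolicRank 0 A) (1 + m + n)) := by
  have h3 : ((∀ x ∈ Submodule.span F (Set.range A), ∀ v, B *ᵥ v = 0 → ∃ w, x *ᵥ v = B *ᵥ w)) ↔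
      ∀ i, ∀ v, B *ᵥ v = 0 → ∃ w, A i *ᵥ v = B *ᵥ w := by
    constructor
    · intro h i
      exact h (A i) (Submodule.subset_span ⟨i, rfl⟩)
    · intro h x hx v hv
      refine Submodule.span_induction (p := fun x _ => ∃ w, x *ᵥ v = B *ᵥ w) ?_ ?_ ?_ ?_ hx
      · rintro _ ⟨i, rfl⟩
        exact h i v hv
      · exact ⟨0, by simp⟩
      · rintro x y _ _ ⟨w, hw⟩ ⟨w', hw'⟩
        exact ⟨w + w', by rw [Matrix.add_mulVec, hw, hw', Matrix.mulVec_add]⟩
      · rintro c x _ ⟨w, hw⟩
        exact ⟨c • w, by rw [Matrix.smul_mulVec, hw, Matrix.mulVec_smul]⟩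
  have h4 : Certified ((Submodule.span F (Set.range A) : Submodule F (Matrix (Fin m) (Fin n) F)) :
        Set (Matrix (Fin m) (Fin n) F)) B.rank (1 + m + n) → B.rank = symbolicRank 0 A := by
    intro h5
    exact le_antisymm (le_symbolicRank_span A B hB) (symbolicRank_le h5 (zero_mem _)
      fun i => Submodule.subset_span ⟨i, rfl⟩)
  have h5 : B.rank = symbolicRank 0 A → ∀ x ∈ Submodule.span F (Set.range A), x.rank ≤ B.rank := by
    intro h6 x hx
    rw [h6]
    exact le_symbolicRank_span A x hx
  constructor
  · rw [← h3]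
    constructor
    · intro h6
      exact (h.out 0 1).2 (h5 h6)
    · intro h6
      exact h4 ((h.out 0 2).1 h6)
  · intro h6
    have h7 := (h.out 1 2).1 (h5 h6)
    rw [← h6]
    exact h7.mono (fun x hx => Submodule.subset_span (Submodule.subset_span hx)) le_rfl le_rfl

end

/-- `T` has a shrunk subspace of value `r`: subspaces `U`, `W` with `x U ⊆ W` for all `x ∈ T` and
`dim W + n - dim U = r`. The least value is the noncommutative rank. -/
def HasShrunk {F : Type} [Field F] {m n : ℕ} (T : Set (Matrix (Fin m) (Fin n) F)) (r : ℕ) : Prop :=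
  ∃ (U : Submodule F (Fin n → F)) (W : Submodule F (Fin m → F)),
    (∀ x ∈ T, ∀ u ∈ U, x *ᵥ u ∈ W) ∧ finrank F W + (n - finrank F U) = r

/-- The first order test at `B`: all `A i` map the kernel of `B` to the range of `B`. -/
def FirstOrder {F ι : Type} [Field F] {m n : ℕ} (A : ι → Matrix (Fin m) (Fin n) F)
    (B : Matrix (Fin m) (Fin n) F) : Prop :=
  ∀ i, ∀ v, B *ᵥ v = 0 → ∃ w, A i *ᵥ v = B *ᵥ w

/-- (1) Soundness of the certificates. -/
def Soundness : Prop :=
  ∀ (F ι : Type) [Field F] [Fintype ι] (m n : ℕ) (A₀ : Matrix (Fin m) (Fin n) F)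
    (A : ι → Matrix (Fin m) (Fin n) F) (r s : ℕ),
    Certified ({A₀} ∪ Set.range A) r s → symbolicRank A₀ A ≤ r

/-- (2) Shrunk subspaces give certificates, and the blocks of weight one are shrunk subspaces. -/
def ContainsShrunkSubspaces : Prop :=
  (∀ (F : Type) [Field F] (m n : ℕ) (T : Set (Matrix (Fin m) (Fin n) F)) (r : ℕ),
    HasShrunk T r → Certified T r (2 + 2 * m + 2 * n)) ∧
  (∀ (F : Type) [Field F] (m n : ℕ) (S J : Submodule F (Matrix (Fin m) (Fin n) F))
    (P : Matrix (Fin n) (Fin m) F) (A : Matrix (Fin m) (Fin n) F), IsBlock (1 : F) S J P A →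
    HasShrunk (S : Set (Matrix (Fin m) (Fin n) F)) P.rank)

/-- (3) The bound of Lovász for the spaces spanned by skew-symmetric matrices of rank two. -/
def ContainsParityBound : Prop :=
  ∀ (F ι : Type) [Field F] (n k : ℕ) (u v : ι → Fin n → F) (W : Submodule F (Fin n → F))
    (H : Fin k → Submodule F (Fin n → F)) (c : ι → Fin k), (2 : F) ≠ 0 →
    (∀ i, u i ∈ W ⊔ H (c i)) → (∀ i, v i ∈ W ⊔ H (c i)) →
    Certified (Set.range fun i => vecMulVec (u i) (v i) - vecMulVec (v i) (u i))
      (2 * finrank F W + ∑ j, 2 * (finrank F (H j) / 2))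
      (2 + 4 * n + ∑ j, (1 + 2 * finrank F (H j)))

/-- (4) Spaces closed under `x ↦ x y x`, `y` a generalised inverse of an element `B`: the first order
test is exact, and if `B` has maximal rank there is an exact certificate. -/
def ExactIfClosed : Prop :=
  ∀ (F ι : Type) [Field F] [Infinite F] [Fintype ι] (m n : ℕ)
    (A : ι → Matrix (Fin m) (Fin n) F) (B : Matrix (Fin m) (Fin n) F)
    (y : Matrix (Fin n) (Fin m) F), (2 : F) ≠ 0 → B ∈ Submodule.span F (Set.range A) →
    B * y * B = B → (∀ x ∈ Submodule.span F (Set.range A),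
      x * y * x ∈ Submodule.span F (Set.range A)) →
    (B.rank = symbolicRank 0 A ↔ FirstOrder A B) ∧
    (B.rank = symbolicRank 0 A → Certified (Set.range A) (symbolicRank 0 A) (1 + m + n))

/-- (5) Spaces closed under `x yᵀ x` over ordered fields: there is an exact certificate, and
the first order test is exact at all elements. -/
def ExactIfTriple : Prop :=
  ∀ (F ι : Type) [Field F] [LinearOrder F] [IsStrictOrderedRing F] [Fintype ι] (m n : ℕ)
    (A : ι → Matrix (Fin m) (Fin n) F),
    (∀ x ∈ Submodule.span F (Set.range A), ∀ y ∈ Submodule.span F (Set.range A),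
      x * yᵀ * x ∈ Submodule.span F (Set.range A)) →
    Certified (Set.range A) (symbolicRank 0 A) (1 + m + n) ∧
    ∀ B ∈ Submodule.span F (Set.range A), (B.rank = symbolicRank 0 A ↔ FirstOrder A B)

/-- (6) There are `n + 1` matrices of order `2 ^ (n + 1)` (the contractions of the exterior algebra)
with symbolic rank `2 ^ n`, a certificate of this value, and no shrunk subspace of a value less
than `2 ^ (n + 1)` minus the middle binomial coefficient. -/
def BeyondNoncommutativeRank : Prop :=
  ∀ (F : Type) [Field F] (n : ℕ), (2 : F) ≠ 0 →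
    ∃ A : Fin (n + 1) → Matrix (Fin (2 ^ (n + 1))) (Fin (2 ^ (n + 1))) F,
      symbolicRank 0 A = 2 ^ n ∧ Certified (Set.range A) (2 ^ n) (1 + 2 ^ (n + 2)) ∧
      ∀ r, HasShrunk (Set.range A) r → 2 ^ (n + 1) ≤ r + (n + 1).choose ((n + 1) / 2)

/-- **Jordan certificates.** -/
theorem result : Soundness ∧ ContainsShrunkSubspaces ∧ ContainsParityBound ∧ ExactIfClosed ∧
    ExactIfTriple ∧ BeyondNoncommutativeRank := by
  refine ⟨?_, ⟨?_, ?_⟩, ?_, ?_, ?_, ?_⟩
  · intro F ι _ _ m n A₀ A r s h
    exact symbolicRank_le h (Or.inl rfl) fun i => Or.inr ⟨i, rfl⟩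
  · rintro F _ m n T r ⟨U, W, h, rfl⟩
    exact certified_shrunk T U W h
  · intro F _ m n S J P A h
    exact exists_shrunk_of_block h
  · intro F ι _ n k u v W H c h2 hu hv
    exact certified_parity h2 u v W H c hu hv
  · intro F ι _ _ _ m n A B y h2 hB hy hS
    exact exact_of_tfae A B hB (regular_tfae h2 _ B hB y hy hS)
  · intro F ι _ _ _ _ m n A hS
    refine ⟨?_, fun B hB => (exact_of_tfae A B hB (triple_tfae _ hS B hB)).1⟩
    obtain ⟨B, hB, hmax⟩ := exists_max (Submodule.span F (Set.range A))
    have h1 := triple_tfae _ hS B hB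
    have h2 := exact_of_tfae A B hB h1
    refine h2.2 (h2.1.2 fun i => ?_)
    have h3 : ∀ x ∈ Submodule.span F (Set.range A), ∀ v, B *ᵥ v = 0 → ∃ w, x *ᵥ v = B *ᵥ w :=
      (h1.out 0 1).2 hmax
    exact h3 (A i) (Submodule.subset_span ⟨i, rfl⟩)
  · intro F _ n h2
    obtain ⟨⟨v, hv⟩, h3, h4⟩ := ext_example F n h2
    have hrange : ∀ w, conM F (n + 1) w = ∑ j, w j • conM F (n + 1) (Pi.single j 1) := by
      intro w
      conv_lhs => rw [← Finset.univ_sum_single w]
      rw [map_sum]
      refine Finset.sum_congr rfl fun j _ => ?_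
      rw [← map_smul]
      congr 1
      rw [← Pi.single_smul, smul_eq_mul, mul_one]
    have h5 : Certified (Set.range fun j => conM F (n + 1) (Pi.single j 1)) (2 ^ n)
        (1 + 2 ^ (n + 1) + 2 ^ (n + 1)) :=
      h3.mono (by
        rintro _ ⟨j, rfl⟩
        exact Submodule.subset_span ⟨_, rfl⟩) le_rfl le_rfl
    refine ⟨fun j => conM F (n + 1) (Pi.single j 1), ?_, h5.mono (fun x hx =>
      Submodule.subset_span hx) le_rfl ?_, ?_⟩
    · apply le_antisymm
      · refine symbolicRank_le (h5.mono (T' := {0} ∪ Set.range fun j => conM F (n + 1) (Pi.single j 1)) ?_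
          le_rfl le_rfl) (Or.inl rfl) fun i => Or.inr ⟨i, rfl⟩
        rintro x (hx | hx)
        · rw [Set.mem_singleton_iff.1 hx]
          exact zero_mem _
        · exact Submodule.subset_span hx
      · rw [← hv]
        apply le_symbolicRank_span
        rw [hrange v]
        exact Submodule.sum_mem _ fun j _ => Submodule.smul_mem _ _ (Submodule.subset_span ⟨j, rfl⟩)
    · have : 2 ^ (n + 2) = 2 ^ (n + 1) * 2 := pow_succ 2 (n + 1)
      omega
    · rintro r ⟨U, W, hUW, rfl⟩
      apply h4 U W
      intro w u hu
      rw [hrange w, Matrix.sum_mulVec]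
      refine Submodule.sum_mem _ fun j _ => ?_
      rw [Matrix.smul_mulVec]
      exact Submodule.smul_mem _ _ (hUW _ ⟨j, rfl⟩ u hu)

end Pool.Agent.Results.MP_966f71_lc.JordanCertificatesH19
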