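import Pool.Agent.V7H90.RK.Final

/-!
# Exponential lower bound for sparse elimination certificates of rank deficiency (MP_966f71_lc)

RANK is in co-NP if every valid upper bound `rank M < r` on a polynomial matrix has a short
certificate.  The certificates studied here are: invertible matrices `L`, `R` over a ring of
fractions `W⁻¹ F[x]` of the polynomial ring such that `L (M ⊕ 1_k) R` has an `I × J` block of zeros
with `|I| + |J| + r > a + b + k` (`M` is `a × b`, `k` auxiliary rows and columns are allowed).
Here `W = sparseDen F σ s` consists of all products of nonzero polynomials with at most `s`
monomials.  Such certificates contain the Hall-König certificates (permutation matrices), the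
shrunk subspaces of the noncommutative rank (constant matrices), kernel vectors, rank factorisations
`q M = B C` (with `k` equal to the inner dimension and `q` in `W`), and all Gaussian eliminations:
sequences, of any length, of elementary row and column operations in which all denominators and
scaling factors are in `W` up to units.  The numerators are not restricted in any way.

Proved below, for every field `F`:
* the certificates (over all sparsities `s`) are sound and complete for `rank M < r`;
* the generic alternating matrix `genSkew F (2 m + 1)` of odd order, whose entries have at most one
  monomial, is singular;
* each certificate of this fact, with an arbitrary multiplicative set `W` of denominators, has some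
  denominator that vanishes on all alternating matrices of rank at most `2 m - 2`;
* hence each certificate with `s`-sparse denominators has `s ≥ 2 ^ (m - 1)`, whatever the number `k`
  of auxiliary rows and whatever the length of the elimination, and each certificate whose
  denominators are products of polynomials of degree at most `d` has `d ≥ m`.
-/

open MvPolynomial Matrix Pool.Agent.V7H90.RK

namespace Pool.Agent.Results.MP_966f71_lc.SparseEliminationH90

universe u v

theorem result (F : Type u) [Field F] :
    -- soundness and completeness of the certificates
    (∀ (σ : Type v) (a b r : ℕ) (M : Matrix (Fin a) (Fin b) (MvPolynomial σ F)),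
      (∃ s k, HasCert (sparseDen F σ s) k r M) ↔ polyRank M < r) ∧
    -- the generic alternating matrix of odd order is singular
    (∀ m : ℕ, polyRank (genSkew F (2 * m + 1)) < 2 * m + 1) ∧
    (∀ m k : ℕ, 1 ≤ m →
      -- every certificate of that has a denominator vanishing on the matrices of rank `≤ 2 m - 2`
      (∀ W, HasCert W k (2 * m + 1) (genSkew F (2 * m + 1)) → ∃ g ∈ W, Van (m - 1) g) ∧
      -- exponential lower bound on the number of monomials in the denominators
      (∀ s, HasCert (sparseDen F _ s) k (2 * m + 1) (genSkew F (2 * m + 1)) → 2 ^ (m - 1) ≤ s) ∧
      -- lower bound on the degree of the denominators
      (∀ d, HasCert (degreeDen F _ d) k (2 * m + 1) (genSkew F (2 * m + 1)) → m ≤ d)) := by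
  refine ⟨fun σ a b r M => ⟨?_, fun h => ?_⟩, fun m => rank_genSkew F m, fun m k hm =>
    ⟨fun W h => cert_obstruction hm W h, fun s h => sparse_bound hm h,
      fun d h => degree_bound hm h⟩⟩
  · rintro ⟨s, k, h⟩
    exact sound (zero_notMem_sparseDen s) M h
  · obtain ⟨s, hs⟩ := complete M h
    exact ⟨s, 0, hs⟩

end Pool.Agent.Results.MP_966f71_lc.SparseEliminationH90
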