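import Pool.Agent.V7L.Ed.Cases

/-!
# Edmonds' problem for symmetric matrices whose variables have coefficients of Witt index at most one

Let `M = A₀ + ∑ xᵢ Aᵢ` with `A₀` an arbitrary symmetric matrix and symmetric `Aᵢ` the quadratic forms
of which have Witt index at most one modulo the radical: for instance all symmetric matrices of rank
at most three, or real symmetric matrices with at most one negative (or at most one positive)
eigenvalue. Over every infinite field of characteristic different from two, the rank of `M` over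
the field of rational functions is the minimum of `n - dim V + dim (A₀ V + ∑ Aᵢ V)`, that is, the
noncommutative rank. Three `5 × 5` matrices of rank four show that rank three is best possible.

Proof. Let `k` be a polynomial vector with `M k = 0`. For two points `x`, `y` one has
`∑ (xᵢ - yᵢ) k(y)ᵀ Aᵢ k(x) = 0`. On a line in direction `i` this says that `Aᵢ k` takes values in
vectors which are isotropic and pairwise orthogonal, so that they are proportional, as the Witt
index is at most one; for two directions the identity gives a functional equation which forces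
the direction of `Aᵢ k(x)` not to depend on `x` at all. So `Aᵢ` maps the rational hull `U` of the
kernel into one line, which lies in the image of the kernel's hull under `M`, and the dimension
count gives the formula.
-/

set_option autoImplicit false

namespace Pool.Agent.Results.MP_966f71_lc.WittIndexOneLead

open MvPolynomial Module Matrix Pool.Agent.V7L.Ed

/-- The rank of `A₀ + ∑ xᵢ Aᵢ` over the field of rational functions `F(xᵢ : i ∈ ι)`. -/
noncomputable def symbolicRank {F : Type} [Field F] {n : ℕ} {ι : Type} [Fintype ι]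
    (A₀ : Matrix (Fin n) (Fin n) F) (A : ι → Matrix (Fin n) (Fin n) F) : ℕ := (pencilL A₀ A).rank

/-- The numbers `n - dim V + dim Y`, where `V`, `Y` are subspaces of `Fⁿ` with `A₀ V ⊆ Y` and
`Aᵢ V ⊆ Y` for all `i`. The least of them is the noncommutative rank of `A₀ + ∑ xᵢ Aᵢ`. -/
def shrinkBounds {F : Type} [Field F] {n : ℕ} {ι : Type} [Fintype ι]
    (A₀ : Matrix (Fin n) (Fin n) F) (A : ι → Matrix (Fin n) (Fin n) F) : Set ℕ :=
  {r | ∃ V Y : Submodule F (Fin n → F), (∀ u ∈ V, A₀ *ᵥ u ∈ Y) ∧ (∀ i, ∀ u ∈ V, A i *ᵥ u ∈ Y) ∧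
    r + finrank F V = n + finrank F Y}

/-- **Symmetric matrices with coefficients of Witt index at most one.** -/
theorem result :
    (∀ (F : Type) [Field F] [Infinite F] (n : ℕ) (ι : Type) [Fintype ι]
      (A₀ : Matrix (Fin n) (Fin n) F) (A : ι → Matrix (Fin n) (Fin n) F),
      (2 : F) ≠ 0 → A₀.IsSymm → (∀ i, (A i).IsSymm) → (∀ i, WittLeOne (A i)) →
      IsLeast (shrinkBounds A₀ A) (symbolicRank A₀ A) ∧
      ∃ v : ι → Fin n → F, (∀ i, v i ⬝ᵥ (A i *ᵥ v i) = 0) ∧
        (∀ u ∈ isoSpace A v, A₀ *ᵥ u ∈ target A₀ A v) ∧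
        (∀ i, ∀ u ∈ isoSpace A v, A i *ᵥ u ∈ target A₀ A v) ∧
        symbolicRank A₀ A + finrank F (isoSpace A v) = n + finrank F (target A₀ A v)) ∧
    (∀ (F : Type) [Field F] (n : ℕ) (B : Matrix (Fin n) (Fin n) F),
      B.IsSymm → B.rank ≤ 3 → WittLeOne B) ∧
    (∀ (n : ℕ) (B : Matrix (Fin n) (Fin n) ℝ) (w : Fin n → ℝ), B.IsSymm →
      ((∀ v, w ⬝ᵥ v = 0 → 0 ≤ v ⬝ᵥ (B *ᵥ v)) ∨ (∀ v, w ⬝ᵥ v = 0 → v ⬝ᵥ (B *ᵥ v) ≤ 0)) →
      WittLeOne B) ∧
    (∀ (F : Type) [Field F], ∃ A : Fin 3 → Matrix (Fin 5) (Fin 5) F, (∀ i, (A i).IsSymm) ∧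
      (∀ i, (A i).rank ≤ 4) ∧ symbolicRank 0 A ≤ 4 ∧ ∀ r ∈ shrinkBounds 0 A, 5 ≤ r) := by
  refine ⟨?_, ?_, ?_, ?_⟩
  · intro F _ _ n ι _ A₀ A h2 h₀ hs hW
    classical
    obtain ⟨v, hv, hr⟩ := Pool.Agent.V7L.Ed.exists_eq A₀ A (direction h2 A₀ A h₀ hs hW)
    refine ⟨⟨⟨isoSpace A v, target A₀ A v, (le_target A₀ A v).1, (le_target A₀ A v).2, hr⟩, ?_⟩,
      ⟨v, hv, (le_target A₀ A v).1, (le_target A₀ A v).2, hr⟩⟩
    rintro r ⟨V, Y, h3, h4, h5⟩
    have h6 := rank_le A₀ A V Y h3 h4
    unfold symbolicRank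
    omega
  · intro F _ n B hB hr
    exact wittLeOne_of_rank B hB hr
  · intro n B w hB h
    rcases h with h | h
    · exact wittLeOne_of_hyperplane B hB w h
    · have h1 : WittLeOne (-B) := by
        refine wittLeOne_of_hyperplane (-B) (by rw [Matrix.IsSymm, transpose_neg, hB.eq]) w
          fun v hv => ?_
        rw [Matrix.neg_mulVec, dotProduct_neg]
        linarith [h v hv]
      have h2 := wittLeOne_neg (-B) h1
      rwa [neg_neg] at h2
  · intro F _
    refine ⟨five F, five_symm F, five_rank F, five_rank_pencil F, ?_⟩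
    rintro r ⟨V, Y, -, h4, h5⟩
    have h6 := five_full F V Y h4
    omega

end Pool.Agent.Results.MP_966f71_lc.WittIndexOneLead
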